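import Pool.Agent.Lib_MP_f78f32_gb.Bod

/-!
# Origin-symmetric bodies with central sections of constant perimeter are balls

An origin-symmetric convex body of 3-space all of whose central plane sections have the same
perimeter is a ball centred at the origin.
-/

open MeasureTheory

namespace Pool.Agent.Results.MP_f78f32_gt.GlobalRigidity

/-- Global rigidity: the answer to the question of Gardner. -/
theorem result (K : Set (EuclideanSpace ℝ (Fin 3))) (hK : IsCompact K) (hconv : Convex ℝ K)
    (hint : (interior K).Nonempty) (hsym : ∀ x ∈ K, -x ∈ K)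
    (hper : ∃ p : ENNReal, ∀ e : EuclideanSpace ℝ (Fin 3), ‖e‖ = 1 →
      MeasureTheory.Measure.hausdorffMeasure (1:ℝ)
        {x : EuclideanSpace ℝ (Fin 3) | x ∈ K ∧ inner ℝ x e = (0:ℝ) ∧
          ∀ ε : ℝ, ε > 0 → ∃ y : EuclideanSpace ℝ (Fin 3),
            inner ℝ y e = (0:ℝ) ∧ dist y x < ε ∧ y ∉ K} = p) :
    ∃ r : ℝ, 0 < r ∧ K = Metric.closedBall 0 r := by
  obtain ⟨c, r, hcr⟩ :=
    Pool.Agent.Lib_MP_f78f32_gb.global_rigidity K hK hconv hint hsym hper
  have hr : 0 < r := by
    by_contra hr
    push Not at hr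
    have hsub : K ⊆ {c} := by
      intro x hx
      rw [hcr, Metric.mem_closedBall] at hx
      exact dist_le_zero.mp (hx.trans hr)
    have h1 : (interior ({c} : Set (EuclideanSpace ℝ (Fin 3)))).Nonempty :=
      hint.mono (interior_mono hsub)
    rw [interior_singleton] at h1
    exact Set.not_nonempty_empty h1
  refine ⟨r, hr, ?_⟩
  by_cases hc : c = 0
  · rw [hcr, hc]
  · exfalso
    have hn : 0 < ‖c‖ := norm_pos_iff.mpr hc
    have hmem : c + (r / ‖c‖) • c ∈ K := by
      rw [hcr, Metric.mem_closedBall, dist_eq_norm]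
      have e : c + (r / ‖c‖) • c - c = (r / ‖c‖) • c := by abel
      rw [e, norm_smul, Real.norm_of_nonneg (by positivity)]
      field_simp
      exact le_rfl
    have h2 := hsym _ hmem
    rw [hcr, Metric.mem_closedBall, dist_eq_norm] at h2
    have e : -(c + (r / ‖c‖) • c) - c = (-(2 + r / ‖c‖)) • c := by
      module
    rw [e, norm_smul, norm_neg, Real.norm_of_nonneg (by positivity)] at h2
    have e2 : (2 + r / ‖c‖) * ‖c‖ = 2 * ‖c‖ + r := by field_simp
    rw [e2] at h2
    linarith

end Pool.Agent.Results.MP_f78f32_gt.GlobalRigidity
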